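import Pool.Agent.H868R3.TBMain

/-!
MP_eab3e1_ag: the modified Derksen invariant of the cylinder over a variety of type B can be larger
than the algebra `K[Y] ⊕ ⨁_{i > 0} I u ^ i`.

With `x = t - 1` the variety `Y` has the coordinate ring
`A = {f ∈ S : f (2, 0) = f (2, 1)}`, where
`S = K[t, 1/t, x a, a (x a - 1), a ^ 2 (x a - 1)] ⊆ K[t, 1/t][a]`. All locally nilpotent
derivations of `A` vanish along the curve `t = 1` of `Spec K[t, 1/t][a]`, but those of `A[u]` do
not.
-/

set_option autoImplicit false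
set_option linter.unusedSectionVars false
set_option linter.unusedSimpArgs false

open Polynomial

namespace Pool.Agent.Results.MP_eab3e1_ag.ImageIdealTooSmall

open Pool.Agent.H868R3

universe u

/-- The ideal of `A` which is generated by the images of all locally nilpotent derivations. -/
def imageIdeal (K : Type u) (A : Type u) [Field K] [CommRing A] [Algebra K A] : Ideal A :=
  Ideal.span {b | ∃ D : Derivation K A A, IsLND D ∧ ∃ a, D a = b}

section general

variable {K B B' : Type u} [Field K] [CommRing B] [CommRing B'] [Algebra K B] [Algebra K B']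

/-- restriction of a derivation along an injective homomorphism, auxiliary form -/
noncomputable def resAux (ι : B →ₐ[K] B') (hι : Function.Injective ι) (D : Derivation K B' B')
    (fn : B → B) (h : ∀ b, ι (fn b) = D (ι b)) : Derivation K B B :=
  Derivation.mk'
    { toFun := fn
      map_add' := by
        intro a b
        apply hι
        rw [h, map_add, map_add, map_add, h, h]
      map_smul' := by
        intro c a
        apply hι
        rw [h, map_smul, Derivation.map_smul, RingHom.id_apply, map_smul, h] }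
    (by
      intro a b
      apply hι
      change ι (fn (a * b)) = ι (a * fn b + b * fn a)
      rw [h, map_add, map_mul ι a (fn b), map_mul ι b (fn a), map_mul ι a b, h, h,
        Derivation.leibniz]
      rfl)

/-- restriction of a derivation along an injective homomorphism -/
noncomputable def res (ι : B →ₐ[K] B') (hι : Function.Injective ι) (D : Derivation K B' B')
    (h : ∀ b, ∃ c, ι c = D (ι b)) : Derivation K B B :=
  resAux ι hι D (fun b => (h b).choose) fun b => (h b).choose_spec

lemma res_spec (ι : B →ₐ[K] B') (hι : Function.Injective ι) (D : Derivation K B' B')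
    (h : ∀ b, ∃ c, ι c = D (ι b)) (b : B) : ι (res ι hι D h b) = D (ι b) :=
  (h b).choose_spec

lemma res_iter (ι : B →ₐ[K] B') (hι : Function.Injective ι) (D : Derivation K B' B')
    (h : ∀ b, ∃ c, ι c = D (ι b)) (n : ℕ) (b : B) :
    ι ((⇑(res ι hι D h))^[n] b) = (⇑D)^[n] (ι b) := by
  induction n with
  | zero => rfl
  | succ n ih => rw [Function.iterate_succ_apply', res_spec, ih, Function.iterate_succ_apply']

lemma res_lnd (ι : B →ₐ[K] B') (hι : Function.Injective ι) (D : Derivation K B' B')
    (h : ∀ b, ∃ c, ι c = D (ι b)) (hD : IsLND D) : IsLND (res ι hι D h) := by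
  intro b
  obtain ⟨n, hn⟩ := hD (ι b)
  exact ⟨n, hι (by rw [res_iter, hn, map_zero])⟩

lemma mem_HDStar_of (ι : B →ₐ[K] B') (hι : Function.Injective ι) (D : Derivation K B' B')
    (h : ∀ b, ∃ c, ι c = D (ι b)) (hD : IsLND D) (s F : B) (hs : D (ι s) = 1)
    (hF : D (ι F) = 0) : F ∈ HDStar K B :=
  Algebra.subset_adjoin ⟨res ι hι D h, res_lnd ι hι D h hD,
    ⟨s, hι (by rw [res_spec, hs, map_one])⟩, hι (by rw [res_spec, hF, map_zero])⟩

/-- iterated Leibniz formula -/
theorem iterate_leibniz (D : Derivation K B B) (n : ℕ) (a b : B) :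
    D^[n] (a * b) = ∑ ij ∈ Finset.HasAntidiagonal.antidiagonal n,
      (n.choose ij.1 : B) * (D^[ij.1] a * D^[ij.2] b) := by
  induction n with
  | zero => simp
  | succ n ih =>
    rw [Finset.sum_antidiagonal_choose_succ_mul (fun i j => D^[i] a * D^[j] b) n,
      Function.iterate_succ_apply', ih, map_sum, ← Finset.sum_add_distrib]
    refine Finset.sum_congr rfl fun ij hij => ?_
    rw [Derivation.leibniz, Derivation.map_natCast, smul_zero, add_zero, Derivation.leibniz,
      Function.iterate_succ_apply', Function.iterate_succ_apply', smul_eq_mul, smul_eq_mul,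
      smul_eq_mul, n.choose_symm_of_eq_add (Finset.HasAntidiagonal.mem_antidiagonal.1 hij).symm]
    ring

lemma iter_zero_of_le (D : Derivation K B B) {m n : ℕ} (h : m ≤ n) {a : B} (ha : D^[m] a = 0) :
    D^[n] a = 0 := by
  obtain ⟨k, rfl⟩ := Nat.exists_eq_add_of_le h
  rw [add_comm, Function.iterate_add_apply, ha]
  exact iterate_map_zero _ _

/-- the elements on which a derivation is locally nilpotent form a subalgebra -/
def nilSub (D : Derivation K B B) : Subalgebra K B where
  carrier := {a | ∃ n : ℕ, D^[n] a = 0}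
  mul_mem' := by
    rintro a b ⟨m, hm⟩ ⟨n, hn⟩
    refine ⟨m + n, ?_⟩
    rw [iterate_leibniz]
    apply Finset.sum_eq_zero
    rintro ⟨i, j⟩ hij
    have hij := Finset.HasAntidiagonal.mem_antidiagonal.1 hij
    simp only at hij ⊢
    rcases Nat.lt_or_ge i m with h | h
    · rw [iter_zero_of_le D (show n ≤ j by omega) hn, mul_zero, mul_zero]
    · rw [iter_zero_of_le D h hm, zero_mul, mul_zero]
  add_mem' := by
    rintro a b ⟨m, hm⟩ ⟨n, hn⟩
    refine ⟨m + n, ?_⟩
    rw [iterate_map_add, iter_zero_of_le D (Nat.le_add_right m n) hm,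
      iter_zero_of_le D (Nat.le_add_left n m) hn, add_zero]
  algebraMap_mem' := by
    intro r
    exact ⟨1, by simp⟩

/-- a locally nilpotent derivation kills the units -/
lemma unit_killed [IsDomain B] [CharZero K] (D : Derivation K B B) (hD : IsLND D) {v w : B}
    (hvw : v * w = 1) : D v = 0 := by
  classical
  by_contra hv
  have hv0 : v ≠ 0 := by rintro rfl; simp at hv
  have hw0 : w ≠ 0 := by rintro rfl; simp at hvw
  have key : ∀ a : B, a ≠ 0 → ∃ m : ℕ, D^[m] a ≠ 0 ∧ D^[m + 1] a = 0 := by
    intro a ha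
    have hex := hD a
    have h1 := Nat.find_spec hex
    have h2 : Nat.find hex ≠ 0 := by
      intro h0
      rw [h0] at h1
      exact ha h1
    obtain ⟨k, hk⟩ := Nat.exists_eq_succ_of_ne_zero h2
    refine ⟨k, ?_, ?_⟩
    · exact Nat.find_min hex (by omega)
    · rw [← Nat.succ_eq_add_one, ← hk]; exact h1
  obtain ⟨m, hm1, hm2⟩ := key v hv0
  obtain ⟨n, hn1, hn2⟩ := key w hw0
  have hm : 1 ≤ m := by
    by_contra h
    have : m = 0 := by omega
    subst this
    exact hv hm2
  have h1 : D^[m + n] (v * w) = ((m + n).choose m : B) * (D^[m] v * D^[n] w) := by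
    rw [iterate_leibniz]
    apply Finset.sum_eq_single (m, n)
    · rintro ⟨i, j⟩ hij hne
      have hij := Finset.HasAntidiagonal.mem_antidiagonal.1 hij
      simp only at hij ⊢
      rcases Nat.lt_trichotomy i m with h | h | h
      · rw [iter_zero_of_le D (show n + 1 ≤ j by omega) hn2, mul_zero, mul_zero]
      · exfalso
        apply hne
        rw [Prod.mk.injEq]
        omega
      · rw [iter_zero_of_le D (show m + 1 ≤ i by omega) hm2, zero_mul, mul_zero]
    · intro h
      exact absurd (Finset.HasAntidiagonal.mem_antidiagonal.2 (show (m, n).1 + (m, n).2 = m + n from rfl)) h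
  have : CharZero B := charZero_of_injective_algebraMap (algebraMap K B).injective
  rw [hvw] at h1
  have h2 : D^[m + n] (1 : B) = 0 :=
    iter_zero_of_le D (show 1 ≤ m + n by omega) (by simp)
  rw [h2] at h1
  have h3 : (((m + n).choose m : ℕ) : B) ≠ 0 :=
    Nat.cast_ne_zero.mpr (Nat.choose_pos (Nat.le_add_right m n)).ne'
  exact (mul_ne_zero h3 (mul_ne_zero hm1 hn1)) h1.symm

end general

section example_

variable (K : Type u) [Field K] [CharZero K]

/-- `x = t - 1` -/
noncomputable def xx : LaurentPolynomial K := LaurentPolynomial.T 1 - LaurentPolynomial.C 1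

/-- `h = t - 2` -/
noncomputable def hh : LaurentPolynomial K := LaurentPolynomial.T 1 - LaurentPolynomial.C 2

/-- `z = x a` -/
noncomputable def zz : (LaurentPolynomial K)[X] := C (xx K) * X

/-- `y = a (x a - 1)` -/
noncomputable def yy : (LaurentPolynomial K)[X] := X * (C (xx K) * X - 1)

/-- `w = a ^ 2 (x a - 1)` -/
noncomputable def ww : (LaurentPolynomial K)[X] := X ^ 2 * (C (xx K) * X - 1)

/-- `S = K[t, 1/t, x a, a (x a - 1), a ^ 2 (x a - 1)]` -/
noncomputable def SS : Subalgebra K (LaurentPolynomial K)[X] :=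
  Algebra.adjoin K {C (LaurentPolynomial.T 1), C (LaurentPolynomial.T (-1)), zz K, yy K, ww K}

/-- the unit `2` -/
noncomputable def u2 : Kˣ := Units.mk0 2 two_ne_zero

/-- the coordinate ring of `Y`: the functions `f ∈ S` with `f (2, 0) = f (2, 1)` -/
noncomputable def AA : Subalgebra K (LaurentPolynomial K)[X] :=
  SS K ⊓ AlgHom.equalizer (ev (evL (u2 K)) 0) (ev (evL (u2 K)) 1)

variable {K}

lemma mem_AA {f : (LaurentPolynomial K)[X]} :
    f ∈ AA K ↔ f ∈ SS K ∧ ev (evL (u2 K)) 0 f = ev (evL (u2 K)) 1 f := Iff.rfl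

lemma evL_xx (c : Kˣ) : evL c (xx K) = (c : K) - 1 := by
  rw [xx, map_sub, evL_T, LaurentPolynomial.C_eq_algebraMap, AlgHom.commutes]
  simp

lemma evL_hh (c : Kˣ) : evL c (hh K) = (c : K) - 2 := by
  rw [hh, map_sub, evL_T, LaurentPolynomial.C_eq_algebraMap, AlgHom.commutes]
  simp

lemma u2_coe : ((u2 K : Kˣ) : K) = 2 := rfl

lemma xx_ne : xx K ≠ 0 := by
  intro h
  have := congrArg (evL (u2 K)) h
  rw [evL_xx, u2_coe, map_zero] at this
  norm_num at this

lemma hh_ne : hh K ≠ 0 := by
  intro h
  have := congrArg (evL (1 : Kˣ)) h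
  rw [evL_hh, map_zero] at this
  norm_num at this

lemma zz_mem : zz K ∈ SS K := Algebra.subset_adjoin (by simp)
lemma yy_mem : yy K ∈ SS K := Algebra.subset_adjoin (by simp)
lemma ww_mem : ww K ∈ SS K := Algebra.subset_adjoin (by simp)

lemma C_mem_SS (r : LaurentPolynomial K) : C r ∈ SS K := by
  have h : (⊤ : Subalgebra K (LaurentPolynomial K)) ≤
      (SS K).comap (IsScalarTower.toAlgHom K (LaurentPolynomial K) (LaurentPolynomial K)[X]) := by
    rw [← laurent_adjoin]
    apply Algebra.adjoin_le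
    rintro x hx
    rcases hx with rfl | hx
    · exact Algebra.subset_adjoin (by simp)
    · rw [Set.mem_singleton_iff] at hx
      subst hx
      exact Algebra.subset_adjoin (by simp)
  exact h (show r ∈ ⊤ from trivial)

lemma C_mem_AA (r : LaurentPolynomial K) : C r ∈ AA K := by
  rw [mem_AA]
  exact ⟨C_mem_SS r, by simp⟩

lemma hh_mul_mem {f : (LaurentPolynomial K)[X]} (hf : f ∈ SS K) : C (hh K) * f ∈ AA K := by
  rw [mem_AA]
  refine ⟨(SS K).mul_mem (C_mem_SS _) hf, ?_⟩
  rw [map_mul, map_mul, ev_C, ev_C, evL_hh, u2_coe, sub_self, zero_mul, zero_mul]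

/-- `x ∂/∂a` preserves `S` -/
lemma xx_derivative_mem {f : (LaurentPolynomial K)[X]} (hf : f ∈ SS K) :
    C (xx K) * derivative f ∈ SS K := by
  refine Algebra.adjoin_induction (R := K)
    (p := fun f _ => C (xx K) * derivative f ∈ SS K) ?_ ?_ ?_ ?_ hf
  · intro f hf
    simp only [Set.mem_insert_iff, Set.mem_singleton_iff] at hf
    rcases hf with rfl | rfl | rfl | rfl | rfl
    · rw [derivative_C, mul_zero]; exact (SS K).zero_mem
    · rw [derivative_C, mul_zero]; exact (SS K).zero_mem
    · have : C (xx K) * derivative (zz K) = C (xx K * xx K) := by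
        simp [zz]
      rw [this]; exact C_mem_SS _
    · have : C (xx K) * derivative (yy K) = C (xx K) * (2 * zz K - 1) := by
        simp only [yy, zz, derivative_mul, derivative_sub, derivative_X, derivative_C,
          derivative_one]
        ring
      rw [this]
      refine (SS K).mul_mem (C_mem_SS _) ((SS K).sub_mem ((SS K).mul_mem ?_ zz_mem) (SS K).one_mem)
      exact (SS K).natCast_mem 2
    · have : C (xx K) * derivative (ww K) = zz K * (3 * zz K - 2) := by
        simp only [ww, zz, derivative_mul, derivative_sub, derivative_X, derivative_C,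
          derivative_one, derivative_X_pow]
        simp only [Nat.cast_ofNat, map_ofNat]
        ring
      rw [this]
      refine (SS K).mul_mem zz_mem ((SS K).sub_mem ((SS K).mul_mem ?_ zz_mem) ?_)
      · exact (SS K).natCast_mem 3
      · exact (SS K).natCast_mem 2
  · intro r
    rw [Polynomial.algebraMap_apply, derivative_C, mul_zero]; exact (SS K).zero_mem
  · intro f g _ _ hf hg
    rw [derivative_add, mul_add]
    exact (SS K).add_mem hf hg
  · intro f g hf' hg' hf hg
    have : C (xx K) * derivative (f * g) = (C (xx K) * derivative f) * g +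
        f * (C (xx K) * derivative g) := by
      rw [derivative_mul]; ring
    rw [this]
    exact (SS K).add_mem ((SS K).mul_mem hf hg') ((SS K).mul_mem hf' hg)

/-- `S ⊆ K[t, 1/t] + (x a - 1)` -/
lemma exists_of_mem_SS {f : (LaurentPolynomial K)[X]} (hf : f ∈ SS K) :
    ∃ (r : LaurentPolynomial K) (g : (LaurentPolynomial K)[X]),
      f = C r + (C (xx K) * X - 1) * g := by
  refine Algebra.adjoin_induction (R := K)
    (p := fun f _ => ∃ (r : LaurentPolynomial K) (g : (LaurentPolynomial K)[X]),
      f = C r + (C (xx K) * X - 1) * g) ?_ ?_ ?_ ?_ hf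
  · intro f hf
    simp only [Set.mem_insert_iff, Set.mem_singleton_iff] at hf
    rcases hf with rfl | rfl | rfl | rfl | rfl
    · exact ⟨LaurentPolynomial.T 1, 0, by simp⟩
    · exact ⟨LaurentPolynomial.T (-1), 0, by simp⟩
    · exact ⟨1, 1, by simp only [zz, C_1]; ring⟩
    · exact ⟨0, X, by simp only [yy, C_0]; ring⟩
    · exact ⟨0, X ^ 2, by simp only [ww, C_0]; ring⟩
  · intro r
    exact ⟨algebraMap K _ r, 0, by rw [Polynomial.algebraMap_apply]; simp⟩
  · rintro f g - - ⟨r, p, rfl⟩ ⟨s, q, rfl⟩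
    exact ⟨r + s, p + q, by rw [C_add]; ring⟩
  · rintro f g - - ⟨r, p, rfl⟩ ⟨s, q, rfl⟩
    exact ⟨r * s, C r * q + C s * p + (C (xx K) * X - 1) * p * q, by rw [C_mul]; ring⟩

lemma eq_zero_of_dvd (s : LaurentPolynomial K) (g : (LaurentPolynomial K)[X])
    (h : C s = (C (xx K) * X - 1) * g) : s = 0 := by
  by_contra hs
  have hg : g ≠ 0 := by
    rintro rfl
    rw [mul_zero, C_eq_zero] at h
    exact hs h
  have h1 : (C (xx K) * X - 1 : (LaurentPolynomial K)[X]).natDegree = 1 := by
    have : (C (xx K) * X - 1 : (LaurentPolynomial K)[X]) = C (xx K) * X + C (-1) := by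
      rw [C_neg, C_1]; ring
    rw [this]
    exact natDegree_linear xx_ne
  have h2 : (C (xx K) * X - 1 : (LaurentPolynomial K)[X]) ≠ 0 := by
    intro h0
    rw [h0, natDegree_zero] at h1
    omega
  have h3 := congrArg natDegree h
  rw [natDegree_C, natDegree_mul h2 hg, h1] at h3
  omega

/-- the restriction to the curve `t = 1` -/
noncomputable def atOne : (LaurentPolynomial K)[X] →ₐ[K] K[X] := mapAlgHom (evL (1 : Kˣ))

lemma atOne_C (r : LaurentPolynomial K) : atOne (C r) = C (evL (1 : Kˣ) r) := by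
  simp [atOne]

/-- **All locally nilpotent derivations of `A` vanish along the curve `t = 1`.** -/
theorem lnd_vanishes {A : Type u} [CommRing A] [Algebra K A]
    (val : A →ₐ[K] (LaurentPolynomial K)[X]) (hval : Function.Injective val)
    (hr1 : ∀ a, val a ∈ AA K) (hr2 : ∀ p ∈ AA K, ∃ a, val a = p)
    (δ : Derivation K A A) (hδ : IsLND δ) (f : A) :
    atOne (val (δ f)) = 0 := by
  have hcR : CharZero (LaurentPolynomial K) :=
    charZero_of_injective_algebraMap (algebraMap K (LaurentPolynomial K)).injective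
  have hdA : IsDomain A := hval.isDomain (val : A →+* (LaurentPolynomial K)[X])
  -- constants are killed
  have hC : ∀ (r : LaurentPolynomial K) (a : A), val a = C r → δ a = 0 := by
    have h1 : (⊤ : Subalgebra K (LaurentPolynomial K)) ≤
        { carrier := {r | ∃ a : A, val a = C r ∧ δ a = 0}
          mul_mem' := by
            rintro a b ⟨a', ha, ha'⟩ ⟨b', hb, hb'⟩
            refine ⟨a' * b', by rw [map_mul, ha, hb, C_mul], ?_⟩
            rw [Derivation.leibniz, ha', hb']
            simp
          add_mem' := by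
            rintro a b ⟨a', ha, ha'⟩ ⟨b', hb, hb'⟩
            exact ⟨a' + b', by rw [map_add, ha, hb, C_add], by rw [map_add, ha', hb', add_zero]⟩
          algebraMap_mem' := by
            intro r
            exact ⟨algebraMap K A r, by rw [AlgHom.commutes]; rfl, Derivation.map_algebraMap _ _⟩ } := by
      rw [← laurent_adjoin]
      apply Algebra.adjoin_le
      obtain ⟨t1, ht1⟩ := hr2 _ (C_mem_AA (LaurentPolynomial.T 1))
      obtain ⟨t2, ht2⟩ := hr2 _ (C_mem_AA (LaurentPolynomial.T (-1)))
      have hTT : t1 * t2 = 1 := by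
        apply hval
        rw [map_mul, ht1, ht2, map_one, ← C_mul, T_mul_T_neg, C_1]
      rintro x hx
      rcases hx with rfl | hx
      · exact ⟨t1, ht1, unit_killed δ hδ hTT⟩
      · rw [Set.mem_singleton_iff] at hx
        subst hx
        exact ⟨t2, ht2, unit_killed δ hδ (by rw [mul_comm]; exact hTT)⟩
    intro r a ha
    obtain ⟨b, hb, hb'⟩ := h1 (show r ∈ ⊤ from trivial)
    have : a = b := hval (by rw [ha, hb])
    rw [this, hb']
  obtain ⟨hz, hhz⟩ := hr2 _ (hh_mul_mem (zz_mem (K := K)))
  obtain ⟨hw, hhw⟩ := hr2 _ (hh_mul_mem (ww_mem (K := K)))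
  obtain ⟨cc, hcc⟩ := hr2 _ (C_mem_AA (hh K * xx K))
  have hccd : δ cc = 0 := hC _ _ hcc
  have hc0 : (C (hh K * xx K) : (LaurentPolynomial K)[X]) ≠ 0 := by
    rw [Ne, C_eq_zero]
    exact mul_ne_zero hh_ne xx_ne
  obtain ⟨q, hq⟩ : ∃ q, q = val (δ hz) := ⟨_, rfl⟩
  -- the formula for `δ`
  have good_mul : ∀ a b : A,
      C (hh K * xx K) * val (δ a) = q * derivative (val a) →
      C (hh K * xx K) * val (δ b) = q * derivative (val b) →
      C (hh K * xx K) * val (δ (a * b)) = q * derivative (val (a * b)) := by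
    intro a b ha hb
    rw [Derivation.leibniz, smul_eq_mul, smul_eq_mul, map_add, map_mul val a (δ b),
      map_mul val b (δ a), map_mul val a b, derivative_mul]
    linear_combination val b * ha + val a * hb
  have good_C : ∀ (r : LaurentPolynomial K) (a : A), val a = C r →
      C (hh K * xx K) * val (δ a) = q * derivative (val a) := by
    intro r a ha
    rw [hC r a ha, ha]
    simp
  have good_hz : C (hh K * xx K) * val (δ hz) = q * derivative (val hz) := by
    rw [hhz, ← hq]
    simp only [zz, derivative_mul, derivative_C, derivative_X, C_mul]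
    ring
  have good_pow : ∀ n : ℕ, C (hh K * xx K) * val (δ (hz ^ n)) =
      q * derivative (val (hz ^ n)) := by
    intro n
    induction n with
    | zero =>
      rw [pow_zero, Derivation.map_one_eq_zero]
      simp
    | succ n ih =>
      rw [pow_succ]
      exact good_mul _ _ ih good_hz
  have hclear : ∀ p : (LaurentPolynomial K)[X], ∃ (N : ℕ) (g : A),
      val g = C (hh K * xx K) ^ N * p ∧
      C (hh K * xx K) * val (δ g) = q * derivative (val g) := by
    intro p
    induction p using Polynomial.induction_on' with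
    | add p₁ p₂ h₁ h₂ =>
      obtain ⟨N₁, g₁, e₁, f₁⟩ := h₁
      obtain ⟨N₂, g₂, e₂, f₂⟩ := h₂
      have hpow : ∀ N : ℕ, C (hh K * xx K) * val (δ (cc ^ N)) =
          q * derivative (val (cc ^ N)) := by
        intro N
        exact good_C ((hh K * xx K) ^ N) _ (by rw [map_pow, hcc, C_pow])
      refine ⟨N₁ + N₂, cc ^ N₂ * g₁ + cc ^ N₁ * g₂, ?_, ?_⟩
      · rw [map_add, map_mul, map_mul, map_pow, map_pow, hcc, e₁, e₂]
        ring
      · have h3 := good_mul _ _ (hpow N₂) f₁
        have h4 := good_mul _ _ (hpow N₁) f₂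
        rw [map_add, map_add, map_add, mul_add, h3, h4, derivative_add, mul_add]
    | monomial n r =>
      obtain ⟨a, ha⟩ := hr2 _ (C_mem_AA r)
      refine ⟨n, a * hz ^ n, ?_, good_mul _ _ (good_C r a ha) (good_pow n)⟩
      rw [map_mul, map_pow, hhz, ha, ← C_mul_X_pow_eq_monomial, C_mul]
      simp only [zz]
      ring
  have formula : ∀ f : A, C (hh K * xx K) * val (δ f) = q * derivative (val f) := by
    intro f
    obtain ⟨N, g, hg, hgood⟩ := hclear (val f)
    have h1 : g = cc ^ N * f := hval (by rw [hg, map_mul val, map_pow val, hcc])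
    have h2 : val (δ g) = C (hh K * xx K) ^ N * val (δ f) := by
      rw [h1, Derivation.leibniz, Derivation.leibniz_pow, hccd]
      simp only [smul_zero, add_zero, smul_eq_mul, mul_zero]
      rw [map_mul val, map_pow val, hcc]
    rw [h2, hg, ← C_pow, derivative_C_mul, C_pow] at hgood
    apply mul_left_cancel₀ (pow_ne_zero N hc0)
    linear_combination hgood
  -- `q` is a constant
  have hdeg : q.natDegree = 0 := by
    by_contra hne
    have hq0 : q ≠ 0 := by
      intro h; rw [h] at hne; simp at hne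
    have step : ∀ g : A, 1 ≤ (val g).natDegree → 1 ≤ (val (δ g)).natDegree := by
      intro g hg
      have h1 := formula g
      have h2 : (derivative (val g)).natDegree = (val g).natDegree - 1 :=
        natDegree_derivative _
      have h3 : derivative (val g) ≠ 0 := by
        intro h0
        have := Polynomial.derivative_eq_zero.mp h0
        omega
      have h4 := congrArg natDegree h1
      rw [natDegree_C_mul (mul_ne_zero hh_ne xx_ne), natDegree_mul hq0 h3, h2] at h4
      omega
    have iter : ∀ n : ℕ, 1 ≤ (val ((⇑δ)^[n] hz)).natDegree := by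
      intro n
      induction n with
      | zero =>
        change 1 ≤ (val hz).natDegree
        rw [hhz]
        have : C (hh K) * zz K = C (hh K * xx K) * X := by
          simp only [zz, C_mul]; ring
        rw [this, natDegree_C_mul (mul_ne_zero hh_ne xx_ne), natDegree_X]
      | succ n ih =>
        rw [Function.iterate_succ_apply']
        exact step _ ih
    obtain ⟨n, hn⟩ := hδ hz
    have := iter n
    rw [hn] at this
    simp at this
  obtain ⟨q0, hq0⟩ : ∃ q0, q = C q0 := ⟨_, Polynomial.eq_C_of_natDegree_eq_zero hdeg⟩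
  -- `x ^ 2` divides `q`
  obtain ⟨r, p1, hrp⟩ := exists_of_mem_SS (mem_AA.mp (hr1 (δ hw))).1
  have h5 := formula hw
  rw [hhw, hq0, hrp] at h5
  have h6 : C (xx K) * (C r + (C (xx K) * X - 1) * p1) = C q0 * (X * (3 * (C (xx K) * X) - 2)) := by
    have hh0 : (C (hh K) : (LaurentPolynomial K)[X]) ≠ 0 := by
      rw [Ne, C_eq_zero]; exact hh_ne
    apply mul_left_cancel₀ hh0
    rw [C_mul, mul_assoc] at h5
    rw [h5]
    simp only [ww, derivative_mul, derivative_sub, derivative_X, derivative_C,
          derivative_one, derivative_X_pow]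
    simp only [Nat.cast_ofNat, map_ofNat]
    ring
  have h7 : C (xx K ^ 2 * r - q0) = (C (xx K) * X - 1) *
      (C q0 * (3 * (C (xx K) * X) + 1) - C (xx K) ^ 2 * p1) := by
    rw [C_sub, C_mul, C_pow]
    linear_combination C (xx K) * h6
  have h8 := eq_zero_of_dvd _ _ h7
  have h9 : q0 = xx K ^ 2 * r := (sub_eq_zero.mp h8).symm
  have h10 : C (hh K) * val (δ f) = C (xx K) * (C r * derivative (val f)) := by
    have hx0 : (C (xx K) : (LaurentPolynomial K)[X]) ≠ 0 := by
      rw [Ne, C_eq_zero]; exact xx_ne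
    apply mul_left_cancel₀ hx0
    have := formula f
    rw [hq0, h9, C_mul, C_mul, C_pow] at this
    linear_combination this
  have h11 := congrArg atOne h10
  rw [map_mul, map_mul, atOne_C, atOne_C, evL_xx, evL_hh] at h11
  simp only [Units.val_one, sub_self, C_0, zero_mul] at h11
  have h12 : (C ((1 : K) - 2) : K[X]) ≠ 0 := by
    rw [Ne, C_eq_zero]; norm_num
  exact (mul_eq_zero.mp h11).resolve_left h12

lemma image_le (b : AA K) (hb : b ∈ imageIdeal K (AA K)) :
    atOne (b : (LaurentPolynomial K)[X]) = 0 := by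
  have h : imageIdeal K (AA K) ≤
      RingHom.ker ((atOne.comp (AA K).val : AA K →ₐ[K] K[X]) : AA K →+* K[X]) := by
    rw [imageIdeal, Ideal.span_le]
    rintro b ⟨D, hD, a, rfl⟩
    exact lnd_vanishes (AA K).val Subtype.val_injective (fun a => a.2) (fun p hp => ⟨⟨p, hp⟩, rfl⟩)
      D hD a
  exact h hb

end example_

/-! ### The derivation of `R[a][u]` with a slice -/

section deriv

variable {K R : Type u} [Field K] [CommRing R] [Algebra K R]

/-- `∂/∂a` on `R[a]` -/
noncomputable def da : Derivation K R[X] R[X] :=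
  (Polynomial.derivative' : Derivation R R[X] R[X]).restrictScalars K

/-- `∂/∂u` on `R[a][u]` -/
noncomputable def du : Derivation K R[X][X] R[X][X] :=
  (Polynomial.derivative' : Derivation R[X] R[X][X] R[X][X]).restrictScalars K

variable (x h : R)

/-- `β = a + u` -/
noncomputable def bt : R[X][X] := C X + X

/-- `Q = (x β - 1) (3 x β - 1)` -/
noncomputable def QQ : R[X][X] := (C (C x) * bt - 1) * (3 * (C (C x) * bt) - 1)

/-- `G = β (x β - 1) ^ 2` -/
noncomputable def GG : R[X][X] := bt * ((C (C x) * bt - 1) * (C (C x) * bt - 1))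

variable (K) in
/-- `∂/∂u - h Q (∂/∂a - ∂/∂u)` -/
noncomputable def DD : Derivation K R[X][X] R[X][X] :=
  du - (C (C h) * QQ x) • (mc da - du)

lemma da_apply (f : R[X]) : (da : Derivation K R[X] R[X]) f = derivative f := rfl

lemma mc_C (f : R[X]) : mc (da : Derivation K R[X] R[X]) (C f) = C (derivative f) := by
  rw [← monomial_zero_left, mc_monomial, da_apply, monomial_zero_left]

lemma mc_X : mc (da : Derivation K R[X] R[X]) (X : R[X][X]) = 0 := by
  rw [← monomial_one_one_eq_X, mc_monomial, da_apply, derivative_one, map_zero]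

lemma du_C (f : R[X]) : (du : Derivation K R[X][X] R[X][X]) (C f : R[X][X]) = 0 :=
  derivative_C

lemma du_X : (du : Derivation K R[X][X] R[X][X]) (X : R[X][X]) = 1 := derivative_X

lemma DD_C (f : R[X]) : DD K x h (C f : R[X][X]) = - (C (C h) * QQ x * C (derivative f)) := by
  simp only [DD, Derivation.coe_sub, Pi.sub_apply, Derivation.coe_smul, Pi.smul_apply, mc_C, du_C,
    smul_eq_mul, sub_zero, zero_sub]

lemma DD_X : DD K x h (X : R[X][X]) = 1 + C (C h) * QQ x := by
  simp only [DD, Derivation.coe_sub, Pi.sub_apply, Derivation.coe_smul, Pi.smul_apply, mc_X, du_X,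
    smul_eq_mul, sub_zero, zero_sub]
  ring

lemma DD_CC (r : R) : DD K x h (C (C r) : R[X][X]) = 0 := by
  rw [DD_C, derivative_C, C_0, mul_zero, neg_zero]

lemma DD_CX : DD K x h (C X : R[X][X]) = - (C (C h) * QQ x) := by
  rw [DD_C, derivative_X, C_1, mul_one]

lemma DD_bt : DD K x h (bt : R[X][X]) = 1 := by
  rw [bt, map_add, DD_CX, DD_X]; ring

lemma DD_one : DD K x h (1 : R[X][X]) = 0 := Derivation.map_one_eq_zero _

lemma DD_GG : DD K x h (GG x : R[X][X]) = QQ x := by
  simp only [GG, Derivation.leibniz, map_sub, DD_bt, DD_CC, DD_one, smul_eq_mul, QQ]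
  ring

lemma der_three {B : Type u} [CommRing B] [Algebra K B] (D : Derivation K B B) :
    D (3 : B) = 0 := by
  have := D.map_natCast 3
  rwa [Nat.cast_ofNat] at this

lemma der_four {B : Type u} [CommRing B] [Algebra K B] (D : Derivation K B B) :
    D (4 : B) = 0 := by
  have := D.map_natCast 4
  rwa [Nat.cast_ofNat] at this

lemma der_six {B : Type u} [CommRing B] [Algebra K B] (D : Derivation K B B) :
    D (6 : B) = 0 := by
  have := D.map_natCast 6
  rwa [Nat.cast_ofNat] at this

lemma DD_QQ : DD K x h (QQ x : R[X][X]) = 6 * (C (C x) * C (C x)) * bt - 4 * C (C x) := by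
  have h3 : DD K x h (3 : R[X][X]) = 0 := der_three _
  simp only [QQ, Derivation.leibniz, map_sub, DD_bt, DD_CC, DD_one, smul_eq_mul, h3]
  ring

lemma DD_lnd : IsLND (DD K x h) := by
  have hCC : ∀ r : R, (C (C r) : R[X][X]) ∈ nilSub (DD K x h) := fun r => ⟨1, DD_CC x h r⟩
  have hCX : (C X : R[X][X]) ∈ nilSub (DD K x h) := by
    refine ⟨4, ?_⟩
    have h4 : DD K x h (4 : R[X][X]) = 0 := der_four _
    have h6 : DD K x h (6 : R[X][X]) = 0 := der_six _
    have e1 : DD K x h (DD K x h (C X)) =
        - (C (C h) * (6 * (C (C x) * C (C x)) * bt - 4 * C (C x))) := by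
      rw [DD_CX, map_neg, Derivation.leibniz, DD_CC, DD_QQ, smul_eq_mul, smul_zero, add_zero]
    have e2 : DD K x h (DD K x h (DD K x h (C X))) = - (C (C h) * (6 * (C (C x) * C (C x)))) := by
      rw [e1, map_neg, Derivation.leibniz, DD_CC, map_sub, Derivation.leibniz, Derivation.leibniz,
        Derivation.leibniz, Derivation.leibniz, DD_CC, DD_bt, h4, h6]
      simp only [smul_eq_mul, mul_zero, add_zero, sub_zero, mul_one]
    have e3 : DD K x h (DD K x h (DD K x h (DD K x h (C X)))) = 0 := by
      rw [e2, map_neg, Derivation.leibniz, DD_CC, Derivation.leibniz, Derivation.leibniz, DD_CC,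
        h6]
      simp only [smul_eq_mul, mul_zero, add_zero, neg_zero]
    exact e3
  have hbt : (bt : R[X][X]) ∈ nilSub (DD K x h) := by
    refine ⟨2, ?_⟩
    simp only [Function.iterate_succ, Function.iterate_zero, Function.comp_apply, id_eq, DD_bt,
      DD_one]
  have hX : (X : R[X][X]) ∈ nilSub (DD K x h) := by
    have : (X : R[X][X]) = bt - C X := by rw [bt]; ring
    rw [this]
    exact (nilSub _).sub_mem hbt hCX
  have hC : ∀ f : R[X], (C f : R[X][X]) ∈ nilSub (DD K x h) := by
    intro f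
    induction f using Polynomial.induction_on' with
    | add p q hp hq => rw [C_add]; exact (nilSub _).add_mem hp hq
    | monomial n r =>
      rw [← C_mul_X_pow_eq_monomial, C_mul, C_pow]
      exact (nilSub _).mul_mem (hCC r) ((nilSub _).pow_mem hCX n)
  intro F
  change F ∈ nilSub (DD K x h)
  induction F using Polynomial.induction_on' with
  | add p q hp hq => exact (nilSub _).add_mem hp hq
  | monomial n f =>
    rw [← C_mul_X_pow_eq_monomial]
    exact (nilSub _).mul_mem (hC f) ((nilSub _).pow_mem hX n)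

end deriv

section line

variable {K R : Type u} [Field K] [CommRing R] [Algebra K R]

/-- `S[u]` inside `R[a][u]` -/
noncomputable def LX (S : Subalgebra K R[X]) : Subalgebra K R[X][X] := (mapAlgHom S.val).range

variable {S A : Subalgebra K R[X]}

lemma mem_LX_of {G : R[X][X]} (h : ∀ n, G.coeff n ∈ S) : G ∈ LX S :=
  lift_exists _ _ h

lemma coeff_mem_of_LX {G : R[X][X]} (h : G ∈ LX S) (n : ℕ) :
    G.coeff n ∈ S := by
  obtain ⟨F, rfl⟩ := h
  simp only [AlgHom.toRingHom_eq_coe, RingHom.coe_coe, coe_mapAlgHom, coeff_map]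
  exact (F.coeff n).2

lemma C_mem_LX {f : R[X]} (hf : f ∈ S) : C f ∈ LX S :=
  ⟨C ⟨f, hf⟩, by simp⟩

lemma X_mem_LX : (X : R[X][X]) ∈ LX S := ⟨X, by simp⟩

lemma num_mem {B : Type u} [CommRing B] [Algebra K B] (T : Subalgebra K B) :
    (2 : B) ∈ T ∧ (3 : B) ∈ T := by
  constructor
  · have := T.natCast_mem 2
    rwa [Nat.cast_ofNat] at this
  · have := T.natCast_mem 3
    rwa [Nat.cast_ofNat] at this

variable {x h : R}

lemma h_mul_mem_LX (hA : ∀ f ∈ S, C h * f ∈ A) {G : R[X][X]} (hG : G ∈ LX S) :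
    C (C h) * G ∈ LX A := by
  apply mem_LX_of
  intro n
  rw [coeff_C_mul]
  exact hA _ (coeff_mem_of_LX hG n)

variable (hC : ∀ r, C r ∈ S) (hz : C x * X ∈ S) (hy : X * (C x * X - 1) ∈ S)

include hC hz in
lemma xbt_mem : C (C x) * bt ∈ LX S := by
  have : C (C x) * bt = C (C x * X) + C (C x) * X := by
    simp only [bt, C_mul]; ring
  rw [this]
  exact (LX S).add_mem (C_mem_LX hz) ((LX S).mul_mem (C_mem_LX (hC _)) X_mem_LX)

include hC hz in
lemma xbt_sub_mem : C (C x) * bt - 1 ∈ LX S := (LX S).sub_mem (xbt_mem hC hz) (LX S).one_mem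

include hC hz in
lemma QQ_mem : QQ x ∈ LX S :=
  (LX S).mul_mem (xbt_sub_mem hC hz)
    ((LX S).sub_mem ((LX S).mul_mem (num_mem _).2 (xbt_mem hC hz)) (LX S).one_mem)

include hC hz hy in
lemma GG_mem : GG x ∈ LX S := by
  have h1 : bt * (C (C x) * bt - 1) ∈ LX S := by
    have : bt * (C (C x) * bt - 1) = C (X * (C x * X - 1)) + 2 * C (C x * X) * X +
        C (C x) * X ^ 2 - X := by
      simp only [bt, C_mul, C_sub, C_1]; ring
    rw [this]
    refine (LX S).sub_mem ((LX S).add_mem ((LX S).add_mem (C_mem_LX hy) ?_) ?_) X_mem_LX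
    · exact (LX S).mul_mem ((LX S).mul_mem (num_mem _).1 (C_mem_LX hz)) X_mem_LX
    · exact (LX S).mul_mem (C_mem_LX (hC _)) ((LX S).pow_mem X_mem_LX 2)
  have h2 : GG x = bt * (C (C x) * bt - 1) * (C (C x) * bt - 1) := by
    rw [GG]; ring
  rw [h2]
  exact (LX S).mul_mem h1 (xbt_sub_mem hC hz)

include hC hz hy in
lemma abt_mem : C X * (C (C x) * bt - 1) ∈ LX S := by
  have : C X * (C (C x) * bt - 1) = C (X * (C x * X - 1)) + C (C x * X) * X := by
    simp only [bt, C_mul, C_sub, C_1]; ring
  rw [this]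
  exact (LX S).add_mem (C_mem_LX hy) ((LX S).mul_mem (C_mem_LX hz) X_mem_LX)

include hC hz in
lemma QQ_mul_z : QQ x * C (derivative (C x * X)) ∈ LX S := by
  have : derivative (C x * X) = C x := by simp
  rw [this]; exact (LX S).mul_mem (QQ_mem hC hz) (C_mem_LX (hC _))

include hC hz in
lemma QQ_mul_y : QQ x * C (derivative (X * (C x * X - 1))) ∈ LX S := by
  have : derivative (X * (C x * X - 1)) = 2 * (C x * X) - 1 := by
    simp only [derivative_mul, derivative_sub, derivative_X, derivative_C, derivative_one]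
    ring
  rw [this]
  refine (LX S).mul_mem (QQ_mem hC hz) (C_mem_LX ?_)
  exact S.sub_mem (S.mul_mem (num_mem _).1 hz) S.one_mem

include hC hz hy in
lemma QQ_mul_w : QQ x * C (derivative (X ^ 2 * (C x * X - 1))) ∈ LX S := by
  have h1 : derivative (X ^ 2 * (C x * X - 1)) = X * (3 * (C x * X) - 2) := by
    simp only [derivative_mul, derivative_sub, derivative_X, derivative_C,
      derivative_one, derivative_X_pow]
    simp only [Nat.cast_ofNat, map_ofNat]
    ring
  have h2 : QQ x * C (derivative (X ^ 2 * (C x * X - 1))) =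
      C (3 * (C x * X) - 2) * (3 * (C (C x) * bt) - 1) * (C X * (C (C x) * bt - 1)) := by
    rw [h1, QQ, C_mul]; ring
  rw [h2]
  refine (LX S).mul_mem ((LX S).mul_mem (C_mem_LX ?_) ?_) (abt_mem hC hz hy)
  · exact S.sub_mem (S.mul_mem (num_mem _).2 hz) (num_mem _).1
  · exact (LX S).sub_mem ((LX S).mul_mem (num_mem _).2 (xbt_mem hC hz)) (LX S).one_mem

include hC hz in
lemma DD_mem (hA : ∀ f ∈ S, C h * f ∈ A) (hAS : A ≤ S)
    (hder : ∀ f ∈ S, QQ x * C (derivative f) ∈ LX S) (F : A[X]) : ∃ G : A[X],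
    mapAlgHom A.val G = DD K x h (mapAlgHom A.val F) := by
  change DD K x h (mapAlgHom A.val F) ∈ LX A
  have hX : DD K x h X ∈ LX A := by
    rw [DD_X]
    exact (LX A).add_mem (LX A).one_mem (h_mul_mem_LX hA (QQ_mem hC hz))
  induction F using Polynomial.induction_on' with
  | add p q hp hq =>
    rw [map_add, map_add]
    exact (LX A).add_mem hp hq
  | monomial n f =>
    have h1 : mapAlgHom A.val (monomial n f) = C (f : R[X]) * X ^ n := by
      rw [coe_mapAlgHom, map_monomial, ← C_mul_X_pow_eq_monomial]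
      rfl
    rw [h1, Derivation.leibniz, Derivation.leibniz_pow]
    refine (LX A).add_mem ?_ ?_
    · rw [smul_eq_mul]
      refine (LX A).mul_mem (C_mem_LX f.2) ?_
      refine (LX A).nsmul_mem ?_ n
      rw [smul_eq_mul]
      exact (LX A).mul_mem ((LX A).pow_mem X_mem_LX _) hX
    · rw [smul_eq_mul, DD_C]
      refine (LX A).mul_mem ((LX A).pow_mem X_mem_LX _) ?_
      refine (LX A).neg_mem ?_
      rw [mul_assoc]
      exact h_mul_mem_LX hA (hder _ (hAS f.2))

include hC hz hy in
/-- the element of the modified Derksen invariant -/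
theorem exists_mem (hA : ∀ f ∈ S, C h * f ∈ A) (hAS : A ≤ S)
    (hder : ∀ f ∈ S, QQ x * C (derivative f) ∈ LX S) : ∃ F : A[X], F ∈ HDStar K A[X] ∧
    mapAlgHom A.val F =
      C (C h) * (C (X * (C x * X - 1)) + C (C h) * ((2 * C (C x * X) - 1) * GG x) +
        C (C x) * C (C h) * C (C h) * (GG x * GG x)) := by
  obtain ⟨s, hs⟩ : ∃ s : A[X], mapAlgHom A.val s = X - C (C h) * GG x :=
    show X - C (C h) * GG x ∈ LX A from
      (LX A).sub_mem X_mem_LX (h_mul_mem_LX hA (GG_mem hC hz hy))
  obtain ⟨F, hF⟩ : ∃ F : A[X], mapAlgHom A.val F =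
      C (C h) * (C (X * (C x * X - 1)) + C (C h) * ((2 * C (C x * X) - 1) * GG x) +
        C (C x) * C (C h) * C (C h) * (GG x * GG x)) :=
    show _ ∈ LX A from by
      refine h_mul_mem_LX hA ((LX S).add_mem ((LX S).add_mem (C_mem_LX hy) ?_) ?_)
      · refine (LX S).mul_mem (C_mem_LX (hC _)) ((LX S).mul_mem ?_ (GG_mem hC hz hy))
        exact (LX S).sub_mem ((LX S).mul_mem (num_mem _).1 (C_mem_LX hz)) (LX S).one_mem
      · refine (LX S).mul_mem ((LX S).mul_mem ((LX S).mul_mem ?_ ?_) ?_)
          ((LX S).mul_mem (GG_mem hC hz hy) (GG_mem hC hz hy))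
        · exact C_mem_LX (hC _)
        · exact C_mem_LX (hC _)
        · exact C_mem_LX (hC _)
  refine ⟨F, ?_, hF⟩
  refine mem_HDStar_of (mapAlgHom A.val) (mapval_injective A) (DD K x h)
    (DD_mem hC hz hA hAS hder) (DD_lnd x h) s F ?_ ?_
  · rw [hs, map_sub, DD_X, Derivation.leibniz, DD_CC, DD_GG]
    simp only [smul_eq_mul, mul_zero, add_zero]
    ring
  · rw [hF]
    have hy : (C (X * (C x * X - 1)) : R[X][X]) = C X * (C (C x) * C X - 1) := by
      simp only [C_mul, C_sub, C_1]
    have hz : (C (C x * X) : R[X][X]) = C (C x) * C X := by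
      simp only [C_mul]
    have h2 : DD K x h (2 : R[X][X]) = 0 := by
      have := (DD K x h).map_natCast 2
      rwa [Nat.cast_ofNat] at this
    rw [hy, hz]
    simp only [Derivation.leibniz, map_add, map_sub, DD_CC, DD_CX, DD_GG, DD_one, h2,
      smul_eq_mul]
    ring

include hC hz hy in
theorem exists_bad (hA : ∀ f ∈ S, C h * f ∈ A) (hAS : A ≤ S)
    (hder : ∀ f ∈ S, QQ x * C (derivative f) ∈ LX S) (θ : R[X] →ₐ[K] K[X]) (hθX : θ X = X)
    (hθx : θ (C x) = 0) (hθh : θ (C h) = -1) : ∃ F : A[X], F ∈ HDStar K A[X] ∧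
    θ ((F.coeff 1 : A) : R[X]) ≠ 0 := by
  obtain ⟨F, hF, hF2⟩ := exists_mem hC hz hy hA hAS hder
  refine ⟨F, hF, ?_⟩
  have h1 : θ ((F.coeff 1 : A) : R[X]) = (mapAlgHom θ (mapAlgHom A.val F)).coeff 1 := by
    simp only [coe_mapAlgHom, coeff_map]
    rfl
  have hev : ∀ f : R[X], mapAlgHom θ (C f) = C (θ f) := by
    intro f; simp
  have hX2 : mapAlgHom θ (X : R[X][X]) = X := by simp
  have h2 : mapAlgHom θ (mapAlgHom A.val F) = -X := by
    rw [hF2]
    simp only [GG, bt, map_mul, map_add, map_sub, map_one, hev, hX2, hθX, hθx, hθh, C_0, C_neg,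
      C_1, C_mul, C_sub, map_ofNat]
    ring
  rw [h1, h2, coeff_neg, coeff_X_one]
  exact neg_ne_zero.mpr one_ne_zero

lemma set_ne (θ : R[X] →ₐ[K] K[X]) (hI : ∀ b : A, b ∈ imageIdeal K A → θ (b : R[X]) = 0)
    (hbad : ∃ F : A[X], F ∈ HDStar K A[X] ∧ θ ((F.coeff 1 : A) : R[X]) ≠ 0) :
    (HDStar K A[X] : Set A[X]) ≠ {F | ∀ i : ℕ, F.coeff (i + 1) ∈ imageIdeal K A} := by
  intro hEq
  obtain ⟨F, hF, hF2⟩ := hbad
  have h1 : F ∈ (HDStar K A[X] : Set A[X]) := hF
  rw [hEq] at h1
  exact hF2 (hI _ (h1 0))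

lemma hdstar_ne_top [CharZero K] [IsDomain R] (A : Subalgebra K R[X]) (χ0 χ1 : R[X] →ₐ[K] K)
    (hχ : ∀ a ∈ A, χ0 a = χ1 a) (e : R[X]) (he0 : χ0 e = 0) (he1 : χ1 e = 1)
    (hce : ∀ f ∈ A, χ0 f = 0 → ∀ i : ℕ, 1 * e ^ i * f ∈ A) : HDStar K A[X] ≠ ⊤ := by
  intro htop
  have h1 : (X : A[X]) ∈ HDStar K A[X] := by rw [htop]; trivial
  obtain ⟨k, hk⟩ := hdstar_const A χ0 χ1 hχ e 1 he0 he1 A.one_mem (map_one _) hce X h1
  have h2 : resLine A χ0 (X : A[X]) = X := by simp [resLine]
  rw [h2] at hk
  have := congrArg (fun P : K[X] => P.coeff 1) hk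
  simp at this

lemma cda_lnd (c : R) : IsLND (C c • (da : Derivation K R[X] R[X])) := by
  have key : ∀ (n : ℕ) (f : R[X]), (⇑(C c • (da : Derivation K R[X] R[X])))^[n] f =
      C c ^ n * derivative^[n] f := by
    intro n
    induction n with
    | zero => intro f; simp
    | succ n ih =>
      intro f
      rw [Function.iterate_succ_apply', ih, Function.iterate_succ_apply', Derivation.coe_smul,
        Pi.smul_apply, da_apply, smul_eq_mul, derivative_mul, ← C_pow, derivative_C]
      simp only [C_pow]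
      ring
  intro f
  refine ⟨f.natDegree + 1, ?_⟩
  rw [key, Polynomial.iterate_derivative_eq_zero (Nat.lt_succ_self _), mul_zero]

lemma exists_lnd (A : Subalgebra K R[X]) (c : R) (hc : ∀ f ∈ A, C c * derivative f ∈ A)
    (f₀ : R[X]) (hf₀ : f₀ ∈ A) (h0 : C c * derivative f₀ ≠ 0) :
    ∃ D : Derivation K A A, IsLND D ∧ D ≠ 0 := by
  have h : ∀ b : A, ∃ b' : A, A.val b' = (C c • (da : Derivation K R[X] R[X])) (A.val b) :=
    fun b => ⟨⟨_, hc _ b.2⟩, rfl⟩
  refine ⟨res A.val Subtype.val_injective _ h, res_lnd A.val Subtype.val_injective _ h (cda_lnd c),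
    ?_⟩
  intro hD
  have h1 := res_spec A.val Subtype.val_injective _ h ⟨f₀, hf₀⟩
  rw [hD] at h1
  exact h0 h1.symm

end line

section final

variable {K : Type u} [Field K] [CharZero K]

lemma zz_val0 : ev (evL (u2 K)) 0 (zz K) = 0 := by simp [zz]

lemma zz_val1 : ev (evL (u2 K)) 1 (zz K) = 1 := by
  rw [zz, map_mul, ev_C, ev_X, evL_xx, u2_coe]
  norm_num

lemma finiteType_AA : Algebra.FiniteType K (AA K) := by
  let _ : Algebra (AA K) (SS K) := (Subalgebra.inclusion (inf_le_left : AA K ≤ SS K)).toAlgebra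
  have : IsScalarTower K (AA K) (SS K) := IsScalarTower.of_algebraMap_eq (fun _ => rfl)
  constructor
  apply fg_of_fg_of_fg K (AA K) (SS K)
  · rw [Subalgebra.fg_top]
    exact Subalgebra.fg_def.2 ⟨_, Set.toFinite _, rfl⟩
  · classical
    refine ⟨{1, ⟨zz K, zz_mem⟩}, ?_⟩
    rw [eq_top_iff]
    rintro ⟨f, hf⟩ _
    obtain ⟨c, hc⟩ : ∃ c : K, c = ev (evL (u2 K)) 1 f - ev (evL (u2 K)) 0 f := ⟨_, rfl⟩
    have hg : f - c • zz K ∈ AA K := by
      rw [mem_AA]
      refine ⟨(SS K).sub_mem hf ((SS K).smul_mem zz_mem c), ?_⟩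
      rw [map_sub, map_sub, map_smul, map_smul, zz_val0, zz_val1, hc]
      simp
    have h1 : (⟨f, hf⟩ : SS K) = (⟨_, hg⟩ : AA K) • (1 : SS K) +
        (algebraMap K (AA K) c) • (⟨zz K, zz_mem⟩ : SS K) := by
      apply Subtype.ext
      change f = (f - c • zz K) * 1 + (algebraMap K (LaurentPolynomial K)[X] c) * zz K
      rw [Algebra.smul_def]
      ring
    rw [h1]
    apply Submodule.add_mem
    · exact Submodule.smul_mem _ _ (Submodule.subset_span (by simp))
    · exact Submodule.smul_mem _ _ (Submodule.subset_span (by simp))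
  · intro a b hab
    exact Subtype.ext (congrArg (fun z : SS K => (z : (LaurentPolynomial K)[X])) hab)

lemma hder {f : (LaurentPolynomial K)[X]} (hf : f ∈ SS K) :
    QQ (xx K) * C (derivative f) ∈ LX (SS K) := by
  refine Algebra.adjoin_induction (R := K)
    (p := fun f _ => QQ (xx K) * C (derivative f) ∈ LX (SS K)) ?_ ?_ ?_ ?_ hf
  · intro f hf
    simp only [Set.mem_insert_iff, Set.mem_singleton_iff] at hf
    rcases hf with rfl | rfl | rfl | rfl | rfl
    · rw [derivative_C, C_0, mul_zero]; exact (LX _).zero_mem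
    · rw [derivative_C, C_0, mul_zero]; exact (LX _).zero_mem
    · exact QQ_mul_z C_mem_SS zz_mem
    · exact QQ_mul_y C_mem_SS zz_mem
    · exact QQ_mul_w C_mem_SS zz_mem yy_mem
  · intro r
    rw [Polynomial.algebraMap_apply, derivative_C, C_0, mul_zero]; exact (LX _).zero_mem
  · intro f g _ _ hf hg
    rw [derivative_add, C_add, mul_add]
    exact (LX _).add_mem hf hg
  · intro f g hf' hg' hf hg
    have : QQ (xx K) * C (derivative (f * g)) = (QQ (xx K) * C (derivative f)) * C g +
        C f * (QQ (xx K) * C (derivative g)) := by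
      rw [derivative_mul, C_add, C_mul, C_mul]; ring
    rw [this]
    exact (LX _).add_mem ((LX _).mul_mem hf (C_mem_LX hg'))
      ((LX _).mul_mem (C_mem_LX hf') hg)

end final

/-- **The modified Derksen invariant of a cylinder can be larger than `K[Y] ⊕ ⨁_{i > 0} I u ^ i`.**
For every field `K` of characteristic zero there is a finitely generated domain `A` over `K` which
is not rigid and has `HD*(A[u]) ≠ A[u]` (so `Spec A` is of type B), and for which the subalgebra
`HD*(A[u])` of `A[u]` is not the set of all polynomials whose coefficients of positive degree lie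
in the ideal generated by the images of the locally nilpotent derivations of `A`. -/
theorem result : ∀ (K : Type u) [Field K] [CharZero K],
    ∃ (A : Type u) (_ : CommRing A) (_ : Algebra K A),
      IsDomain A ∧ Algebra.FiniteType K A ∧
      (∃ D : Derivation K A A, IsLND D ∧ D ≠ 0) ∧
      HDStar K A[X] ≠ ⊤ ∧
      (HDStar K A[X] : Set A[X]) ≠ {F | ∀ i : ℕ, F.coeff (i + 1) ∈ imageIdeal K A} := by
  intro K _ _
  refine ⟨AA K, inferInstance, inferInstance, inferInstance, finiteType_AA, ?_, ?_, ?_⟩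
  · refine exists_lnd (AA K) (hh K * xx K) ?_ (C (hh K) * zz K) (hh_mul_mem zz_mem) ?_
    · intro f hf
      have : C (hh K * xx K) * derivative f = C (hh K) * (C (xx K) * derivative f) := by
        rw [C_mul]; ring
      rw [this]
      exact hh_mul_mem (xx_derivative_mem (mem_AA.mp hf).1)
    · have : C (hh K * xx K) * derivative (C (hh K) * zz K) = C (hh K * xx K * (hh K * xx K)) := by
        simp only [zz, derivative_mul, derivative_C, derivative_X, C_mul]
        ring
      rw [this, Ne, C_eq_zero]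
      exact mul_ne_zero (mul_ne_zero hh_ne xx_ne) (mul_ne_zero hh_ne xx_ne)
  · refine hdstar_ne_top (AA K) (ev (evL (u2 K)) 0) (ev (evL (u2 K)) 1)
      (fun f hf => (mem_AA.mp hf).2) (zz K) zz_val0 zz_val1 ?_
    intro f hf h0 i
    rw [mem_AA] at hf ⊢
    refine ⟨(SS K).mul_mem ((SS K).mul_mem (SS K).one_mem ((SS K).pow_mem zz_mem i)) hf.1, ?_⟩
    rw [map_mul, map_mul _ (1 * zz K ^ i) f, ← hf.2, h0, mul_zero, mul_zero]
  · refine set_ne atOne image_le (exists_bad (S := SS K) (x := xx K) (h := hh K) C_mem_SS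
      zz_mem yy_mem (fun f hf => hh_mul_mem hf) inf_le_left (fun f hf => hder hf) atOne ?_ ?_ ?_)
    · simp [atOne]
    · rw [atOne_C, evL_xx]; simp
    · rw [atOne_C, evL_hh]
      have : ((1 : Kˣ) : K) - 2 = -1 := by rw [Units.val_one]; norm_num
      rw [this, C_neg, C_1]

end Pool.Agent.Results.MP_eab3e1_ag.ImageIdealTooSmall
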